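import Pool.Agent.H31.SW.Tools

/-!
# The transform of three differences of a function of type 1
-/

set_option autoImplicit false

open MeasureTheory Set Filter Complex

namespace Pool.Agent.H86.SWL

open Pool.Agent.H31.SW
open Pool.Agent.H29.DW (dg Rl lf)

/-- the third difference -/
private noncomputable def T3 (f : ℂ → ℂ) (b₁ b₂ b₃ z : ℂ) : ℂ :=
  f (z + b₁ + b₂ + b₃) - f (z + b₁ + b₂) - f (z + b₁ + b₃) + f (z + b₁) - f (z + b₂ + b₃) +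
      f (z + b₂) + f (z + b₃) - f z

private theorem dif3 (A f : ℂ → ℂ) (Λ b₁ b₂ b₃ z : ℂ) :
    dif b₃ (dif b₂ (dif b₁ (fun z => A z * EE (Λ * f z)))) z =
      dif b₃ (dif b₂ (dif b₁ A)) z * EE (Λ * T3 f b₁ b₂ b₃ z) := by
  have e1 : z + b₂ + b₃ + b₁ = z + b₁ + b₂ + b₃ := by ring
  have e2 : z + b₃ + b₂ = z + b₂ + b₃ := by ring
  have e3 : z + b₃ + b₁ = z + b₁ + b₃ := by ring
  have e4 : z + b₂ + b₁ = z + b₁ + b₂ := by ring
  have e5 : Λ * T3 f b₁ b₂ b₃ z = Λ * f (z + b₁ + b₂ + b₃) + -(Λ * f (z + b₁ + b₂)) +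
      -(Λ * f (z + b₁ + b₃)) + Λ * f (z + b₁) + -(Λ * f (z + b₂ + b₃)) + Λ * f (z + b₂) +
      Λ * f (z + b₃) + -(Λ * f z) := by
    unfold T3
    ring
  rw [e5]
  simp only [EE_add]
  unfold dif
  simp only [map_mul, Complex.conj_conj, conj_EE, e1, e2, e3, e4]
  ring_nf

private theorem dif_scale (G : ℂ → ℂ) (Λ β₁ β₂ β₃ η : ℂ) :
    dif (Λ * β₃) (dif (Λ * β₂) (dif (Λ * β₁) G)) (Λ * η) =
      dif β₃ (dif β₂ (dif β₁ (fun η => G (Λ * η)))) η := by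
  unfold dif
  simp only [mul_add]

private theorem T3_deriv {f f' : ℂ → ℂ} {b₁ b₂ b₃ z : ℂ} {w₀ : ℂ} {ρ : ℝ}
    (h : ∀ w ∈ Metric.ball w₀ ρ, HasDerivAt f (f' w) w)
    (hz : ‖z - w₀‖ + ‖b₁‖ + ‖b₂‖ + ‖b₃‖ < ρ) :
    HasDerivAt (T3 f b₁ b₂ b₃) (T3 f' b₁ b₂ b₃ z) z := by
  have key : ∀ c : ℂ, ‖z - w₀‖ + ‖c‖ < ρ → HasDerivAt (fun z => f (z + c)) (f' (z + c)) z := by
    intro c hc
    refine HasDerivAt.comp_add_const z c (h _ ?_)
    rw [Metric.mem_ball, dist_eq_norm]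
    have : z + c - w₀ = (z - w₀) + c := by ring
    rw [this]
    exact lt_of_le_of_lt (norm_add_le _ _) hc
  have n1 := norm_nonneg b₁
  have n2 := norm_nonneg b₂
  have n3 := norm_nonneg b₃
  have k0 : HasDerivAt f (f' z) z := by
    have := key 0 (by rw [norm_zero]; linarith)
    simpa using this
  have k1 := key b₁ (by linarith)
  have k2 := key b₂ (by linarith)
  have k3 := key b₃ (by linarith)
  have k12 := key (b₁ + b₂) (by linarith [norm_add_le b₁ b₂])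
  have k13 := key (b₁ + b₃) (by linarith [norm_add_le b₁ b₃])
  have k23 := key (b₂ + b₃) (by linarith [norm_add_le b₂ b₃])
  have k123 := key (b₁ + b₂ + b₃) (by linarith [norm_add_le (b₁ + b₂) b₃, norm_add_le b₁ b₂])
  have k := ((((((k123.sub k12).sub k13).add k1).sub k23).add k2).add k3).sub k0
  have e1 : T3 f b₁ b₂ b₃ = fun z => f (z + (b₁ + b₂ + b₃)) - f (z + (b₁ + b₂)) -
      f (z + (b₁ + b₃)) + f (z + b₁) - f (z + (b₂ + b₃)) + f (z + b₂) + f (z + b₃) - f z := by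
    funext z
    unfold T3
    simp only [add_assoc]
  have e2 : T3 f' b₁ b₂ b₃ z = f' (z + (b₁ + b₂ + b₃)) - f' (z + (b₁ + b₂)) -
      f' (z + (b₁ + b₃)) + f' (z + b₁) - f' (z + (b₂ + b₃)) + f' (z + b₂) + f' (z + b₃) - f' z := by
    unfold T3
    simp only [add_assoc]
  rw [e1, e2]
  exact k

private theorem T3_real {f : ℂ → ℂ} {r : Bool} {b₁ b₂ b₃ z : ℂ} {w₀ : ℂ} {ρ : ℝ}
    (h : ∀ w ∈ Metric.ball w₀ ρ, Rl r w → Rl r (f w))
    (hz : ‖z - w₀‖ + ‖b₁‖ + ‖b₂‖ + ‖b₃‖ < ρ) (hr : Rl r z) (h1 : Rl r b₁) (h2 : Rl r b₂)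
    (h3 : Rl r b₃) : Rl r (T3 f b₁ b₂ b₃ z) := by
  have key : ∀ c : ℂ, ‖z - w₀‖ + ‖c‖ < ρ → Rl r c → Rl r (f (z + c)) := by
    intro c hc hcr
    refine h _ ?_ (Rl_add hr hcr)
    rw [Metric.mem_ball, dist_eq_norm]
    have : z + c - w₀ = (z - w₀) + c := by ring
    rw [this]
    exact lt_of_le_of_lt (norm_add_le _ _) hc
  have n1 := norm_nonneg b₁
  have n2 := norm_nonneg b₂
  have n3 := norm_nonneg b₃
  have k0 : Rl r (f z) := by
    have := key 0 (by rw [norm_zero]; linarith) (Rl_zero r)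
    simpa using this
  have k1 := key b₁ (by linarith) h1
  have k2 := key b₂ (by linarith) h2
  have k3 := key b₃ (by linarith) h3
  have k12 := key (b₁ + b₂) (by linarith [norm_add_le b₁ b₂]) (Rl_add h1 h2)
  have k13 := key (b₁ + b₃) (by linarith [norm_add_le b₁ b₃]) (Rl_add h1 h3)
  have k23 := key (b₂ + b₃) (by linarith [norm_add_le b₂ b₃]) (Rl_add h2 h3)
  have k123 := key (b₁ + b₂ + b₃) (by linarith [norm_add_le (b₁ + b₂) b₃, norm_add_le b₁ b₂])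
    (Rl_add (Rl_add h1 h2) h3)
  have e2 : T3 f b₁ b₂ b₃ z = f (z + (b₁ + b₂ + b₃)) - f (z + (b₁ + b₂)) -
      f (z + (b₁ + b₃)) + f (z + b₁) - f (z + (b₂ + b₃)) + f (z + b₂) + f (z + b₃) - f z := by
    unfold T3
    simp only [add_assoc]
  rw [e2]
  exact Rl_sub (Rl_add (Rl_add (Rl_sub (Rl_add (Rl_sub (Rl_sub k123 k12) k13) k1) k23) k2) k3) k0

/-- the first case -/
private theorem case1 {s : ℝ} (k : ℕ) (hs0 : 0 ≤ s) (hs : s ≤ 12) :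
    1 ≤ 13 ^ k * (1 + s) ^ (-(k : ℝ)) := by
  have h1 : 0 < 1 + s := by linarith
  rw [Real.rpow_neg h1.le, Real.rpow_natCast, ← div_eq_mul_inv, one_le_div (by positivity)]
  exact pow_le_pow_left₀ h1.le (by linarith) k

/-- the second case -/
private theorem case2 {s Q : ℝ} (k : ℕ) (r : Bool) (hs : 12 < s) (hQ : 0 ≤ Q) :
    1 / (s * (1 + Q) / 2) ^ (k + 1) ≤
      2 ^ (2 * k + 1) * ((1 + Q) ^ (-(dg r : ℝ) / 2) * (1 + s) ^ (-(k : ℝ))) := by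
  have h1 : 0 < 1 + s := by linarith
  have hs0 : 0 < s := by linarith
  have hQ1 : 1 ≤ 1 + Q := by linarith
  have hQ0 : 0 < 1 + Q := by linarith
  have hdg : (dg r : ℝ) ≤ 2 := by
    unfold dg
    cases r <;> norm_num
  have e1 : (1 + Q)⁻¹ ≤ (1 + Q) ^ (-(dg r : ℝ) / 2) := by
    rw [← Real.rpow_neg_one]
    refine Real.rpow_le_rpow_of_exponent_le hQ1 ?_
    linarith
  have e2 : (1 / s) ^ (k + 1) ≤ 2 ^ k * (1 + s) ^ (-(k : ℝ)) := by
    rw [Real.rpow_neg h1.le, Real.rpow_natCast, one_div, inv_pow, ← div_eq_mul_inv,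
      ← one_div, div_le_div_iff₀ (by positivity) (by positivity), one_mul]
    calc (1 + s) ^ k ≤ (2 * s) ^ k := pow_le_pow_left₀ h1.le (by linarith) k
      _ = 2 ^ k * s ^ k := mul_pow _ _ _
      _ ≤ 2 ^ k * s ^ (k + 1) := by
          refine mul_le_mul_of_nonneg_left ?_ (by positivity)
          exact pow_le_pow_right₀ (by linarith) (Nat.le_succ k)
  have e3 : (1 / (1 + Q)) ^ (k + 1) ≤ (1 + Q)⁻¹ := by
    rw [one_div]
    calc ((1 + Q)⁻¹) ^ (k + 1) ≤ ((1 + Q)⁻¹) ^ 1 :=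
          pow_le_pow_of_le_one (by positivity) (inv_le_one_of_one_le₀ hQ1) (by omega)
      _ = _ := pow_one _
  calc 1 / (s * (1 + Q) / 2) ^ (k + 1) =
        2 ^ (k + 1) * ((1 / (1 + Q)) ^ (k + 1) * (1 / s) ^ (k + 1)) := by
        rw [← mul_pow, ← mul_pow, ← one_div_pow]
        congr 1
        field_simp
    _ ≤ 2 ^ (k + 1) * ((1 + Q) ^ (-(dg r : ℝ) / 2) * (2 ^ k * (1 + s) ^ (-(k : ℝ)))) := by
        refine mul_le_mul_of_nonneg_left ?_ (by positivity)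
        exact mul_le_mul (e3.trans e1) e2 (by positivity) (by positivity)
    _ = _ := by ring

/-- the transform of three differences of a function of type 1 -/
theorem pf_L1 (hNS : W_NS) (hOI : W_OI) (hSB : W_SB) (hHU : W_HU) (hUD : W_UD)
    (hD3 : W_D3) : W_L1 := by
  intro k
  obtain ⟨C1, hC1, hNS'⟩ := hNS (k + 1) (1 / 500) (by norm_num)
  obtain ⟨C2, hC2, hOI'⟩ := hOI (1 / 500) (by norm_num)
  set G1 : ℝ := 2 ^ (k + 3) * (1 * 1) with hG1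
  set G2 : ℝ := 2 ^ (k + 3) * (G1 * G1) with hG2
  set G3 : ℝ := 2 ^ (k + 3) * (G2 * G2) with hG3
  have hG10 : 0 ≤ G1 := by positivity
  have hG20 : 0 ≤ G2 := by positivity
  have hG30 : 0 ≤ G3 := by positivity
  refine ⟨C1 * G3 * 2 ^ (2 * k + 1) + C2 * G3 * 13 ^ k, by positivity, ?_⟩
  intro r Λ a b₁ b₂ b₃ X A hΛ hΛr ha0 ha har hA hb1r hb2r hb3r hb1 hb2 hb3 hb1n hb2n hb3n hXr
  have hΛ0 : Λ ≠ 0 := by
    intro h
    rw [h, norm_zero] at hΛ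
    linarith
  have hΛn : 0 < ‖Λ‖ := norm_pos_iff.2 hΛ0
  -- the quotients
  obtain ⟨β₁, hβ1⟩ : ∃ β : ℂ, b₁ = Λ * β := ⟨b₁ / Λ, by field_simp⟩
  obtain ⟨β₂, hβ2⟩ : ∃ β : ℂ, b₂ = Λ * β := ⟨b₂ / Λ, by field_simp⟩
  obtain ⟨β₃, hβ3⟩ : ∃ β : ℂ, b₃ = Λ * β := ⟨b₃ / Λ, by field_simp⟩
  have hr : ∀ {b β : ℂ}, Rl r b → b = Λ * β → Rl r β := by
    intro b β h1 h2
    have h3 : β = b / Λ := by
      rw [h2]
      field_simp
    rw [h3]
    exact Rl_div h1 hΛr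
  have hn : ∀ {b β : ℂ}, ‖b‖ ≤ 1 / 2000 * ‖Λ‖ → b = Λ * β → ‖β‖ ≤ 1 / 2000 := by
    intro b β h1 h2
    rw [h2, norm_mul, mul_comm] at h1
    exact le_of_mul_le_mul_right h1 hΛn
  have hz : ∀ {b β : ℂ}, b ≠ 0 → b = Λ * β → β ≠ 0 := by
    intro b β h1 h2 h3
    rw [h3, mul_zero] at h2
    exact h1 h2
  have r1 := hr hb1r hβ1
  have r2 := hr hb2r hβ2
  have r3 := hr hb3r hβ3
  have m1 := hn hb1n hβ1
  have m2 := hn hb2n hβ2
  have m3 := hn hb3n hβ3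
  have z1 := hz hb1 hβ1
  have z2 := hz hb2 hβ2
  have z3 := hz hb3 hβ3
  subst hβ1 hβ2 hβ3
  set π : ℂ := β₁ * β₂ * β₃ with hπ
  have hπ0 : π ≠ 0 := mul_ne_zero (mul_ne_zero z1 z2) z3
  set Q : ℝ := ‖Λ * β₁‖ * ‖Λ * β₂‖ * ‖Λ * β₃‖ / ‖Λ‖ ^ 2 with hQ
  have hQe : Q = ‖Λ * π‖ := by
    rw [hQ, norm_mul Λ π, hπ, norm_mul Λ β₁, norm_mul Λ β₂, norm_mul Λ β₃,
      norm_mul (β₁ * β₂) β₃, norm_mul β₁ β₂]
    field_simp
  have hQ0 : 0 ≤ Q := by positivity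
  -- the amplitude
  set A3 : ℂ → ℂ := dif β₃ (dif β₂ (dif β₁ A)) with hA3
  have hA3' : DS (k + 3) G3 1 (1 / 500) A3 :=
    ((hA.dif zero_le_one β₁).dif hG10 β₂).dif hG20 β₃
  -- the phase
  set Ψ : ℂ → ℂ := fun η => Λ * (X * η + T3 (psi a) β₁ β₂ β₃ η) with hΨ
  obtain ⟨hU1, hU2, hU3⟩ := hHU a ha0 ha
  have hball : ∀ η ∈ Metric.ball (1 : ℂ) (4 * (1 / 500)),
      ‖η - 1‖ + ‖β₁‖ + ‖β₂‖ + ‖β₃‖ < 1 / 100 := by
    intro η hη
    rw [Metric.mem_ball, dist_eq_norm] at hη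
    linarith
  have hball' : ∀ η ∈ Metric.ball (1 : ℂ) (4 * (1 / 500)),
      ‖η - 1‖ + ‖β₁‖ + ‖β₂‖ + ‖β₃‖ < 1 / 50 := by
    intro η hη
    have := hball η hη
    linarith
  obtain ⟨U₁, U₂, U₃, U₄, hUU⟩ := hUD.2.2 a ha
  have hder : ∀ η ∈ Metric.ball (1 : ℂ) (4 * (1 / 500)),
      HasDerivAt Ψ (Λ * (T3 (UU a) β₁ β₂ β₃ η + X)) η := by
    intro η hη
    have h1 := T3_deriv (f := psi a) (f' := UU a) hU2 (hball' η hη)
    have h2 : HasDerivAt (fun η : ℂ => X * η) X η := by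
      simpa using (hasDerivAt_id η).const_mul X
    have h3 := (h2.add h1).const_mul Λ
    rw [add_comm X] at h3
    exact h3
  have hreal : ∀ η ∈ Metric.ball (1 : ℂ) (4 * (1 / 500)), Rl r η →
      Rl r (Λ * (T3 (UU a) β₁ β₂ β₃ η + X)) := by
    intro η hη hηr
    refine Rl_mul hΛr (Rl_add ?_ hXr)
    exact T3_real (fun w hw hwr => (hU3 r har w hw hwr).2.1) (hball' η hη) hηr r1 r2 r3
  have hT3 : ∀ η ∈ Metric.ball (1 : ℂ) (4 * (1 / 500)), ‖T3 (UU a) β₁ β₂ β₃ η‖ ≤ 6 * ‖π‖ := by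
    intro η hη
    have h1 := hD3 (UU a) U₁ U₂ U₃ 1 0 (1 / 100) 6 (fun z hz => by
      obtain ⟨h1, h2, h3, h4, h5, h6⟩ := hUU z hz
      exact ⟨h1, h2, h3, by rw [sub_zero]; exact h5⟩) η β₁ β₂ β₃ (hball η hη)
    rw [zero_mul, sub_zero] at h1
    exact h1
  have hT31 : ∀ η ∈ Metric.ball (1 : ℂ) (4 * (1 / 500)),
      ‖T3 U₁ β₁ β₂ β₃ η - 105 / 16 * π‖ ≤ 3 * ‖π‖ := by
    intro η hη
    exact hD3 U₁ U₂ U₃ U₄ 1 (105 / 16) (1 / 100) 3 (fun z hz => by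
      obtain ⟨h1, h2, h3, h4, h5, h6⟩ := hUU z hz
      exact ⟨h2, h3, h4, h6⟩) η β₁ β₂ β₃ (hball η hη)
  -- the integral
  have hFF : FF r (dif (Λ * β₃) (dif (Λ * β₂) (dif (Λ * β₁) (FT1 Λ a A)))) X =
      ((‖Λ‖ ^ dg r : ℝ) : ℂ) * itg r (fun η => A3 η * EE (Ψ η)) := by
    unfold FF
    rw [hSB r Λ _ hΛ0 hΛr]
    congr 1
    refine itg_congr fun η _ => ?_
    rw [dif_scale]
    have e1 : (fun η => FT1 Λ a A (Λ * η)) = fun η => A η * EE (Λ * psi a η) := by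
      funext η
      unfold FT1
      rw [mul_div_cancel_left₀ _ hΛ0]
    rw [e1, dif3, hΨ]
    have e2 : Λ * (X * η + T3 (psi a) β₁ β₂ β₃ η) =
        X * (Λ * η) + Λ * T3 (psi a) β₁ β₂ β₃ η := by ring
    simp only [e2, EE_add]
    ring
  rw [hFF, norm_mul, Complex.norm_real, Real.norm_eq_abs, abs_of_nonneg (by positivity)]
  set s : ℝ := ‖X‖ * ‖Λ‖ / (1 + Q) with hs
  have hs0 : 0 ≤ s := by positivity
  have hQ1 : 0 < 1 + Q := by linarith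
  have hsQ : s * (1 + Q) = ‖X‖ * ‖Λ‖ := by
    rw [hs]
    field_simp
  suffices h : ‖itg r (fun η => A3 η * EE (Ψ η))‖ ≤
      (C1 * G3 * 2 ^ (2 * k + 1) + C2 * G3 * 13 ^ k) *
        ((1 + Q) ^ (-(dg r : ℝ) / 2) * (1 + s) ^ (-(k : ℝ))) by
    calc ‖Λ‖ ^ dg r * ‖itg r (fun η => A3 η * EE (Ψ η))‖ ≤ ‖Λ‖ ^ dg r *
        ((C1 * G3 * 2 ^ (2 * k + 1) + C2 * G3 * 13 ^ k) *
        ((1 + Q) ^ (-(dg r : ℝ) / 2) * (1 + s) ^ (-(k : ℝ)))) :=
          mul_le_mul_of_nonneg_left h (by positivity)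
      _ = _ := by ring
  have hP1 : 0 ≤ (1 + Q) ^ (-(dg r : ℝ) / 2) := Real.rpow_nonneg hQ1.le _
  have hP2 : 0 ≤ (1 + s) ^ (-(k : ℝ)) := Real.rpow_nonneg (by linarith) _
  rcases le_or_gt s 12 with hs12 | hs12
  · -- the second derivative test
    have h1 := hOI' r 1 (Λ * π) (X / π) (105 / 16) Ψ
      (fun η => T3 (UU a) β₁ β₂ β₃ η / π) (fun η => T3 U₁ β₁ β₂ β₃ η / π) A3 G3 hG30
      (by norm_num) (fun η hη => by
        have h2 := hder η hη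
        have h3 : Λ * π * (T3 (UU a) β₁ β₂ β₃ η / π + X / π) =
            Λ * (T3 (UU a) β₁ β₂ β₃ η + X) := by
          field_simp
        rw [h3]
        exact h2)
      (fun η hη => ⟨(T3_deriv (f := UU a) (f' := U₁) (fun w hw => (hUU w hw).1)
        (hball η hη)).div_const π, by
          have h2 := hT31 η hη
          have h3 : T3 U₁ β₁ β₂ β₃ η / π - 105 / 16 = (T3 U₁ β₁ β₂ β₃ η - 105 / 16 * π) / π := by
            field_simp
          rw [h3, norm_div, div_le_iff₀ (norm_pos_iff.2 hπ0)]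
          refine h2.trans ?_
          refine mul_le_mul_of_nonneg_right ?_ (norm_nonneg _)
          norm_num⟩)
      (fun η hη hηr => by
        have h2 := hreal η hη hηr
        have h3 : Λ * π * (T3 (UU a) β₁ β₂ β₃ η / π + X / π) =
            Λ * (T3 (UU a) β₁ β₂ β₃ η + X) := by
          field_simp
        show Rl r (Λ * π * (T3 (UU a) β₁ β₂ β₃ η / π + X / π))
        rw [h3]
        exact h2)
      (hA3'.of_le (by omega))
    rw [← hQe] at h1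
    have h2 := case1 k hs0 hs12
    calc ‖itg r (fun η => A3 η * EE (Ψ η))‖ ≤ C2 * G3 * (1 + Q) ^ (-(dg r : ℝ) / 2) * 1 := by
          rw [mul_one]
          exact h1
      _ ≤ C2 * G3 * (1 + Q) ^ (-(dg r : ℝ) / 2) * (13 ^ k * (1 + s) ^ (-(k : ℝ))) :=
          mul_le_mul_of_nonneg_left h2 (by positivity)
      _ = (C2 * G3 * 13 ^ k) * ((1 + Q) ^ (-(dg r : ℝ) / 2) * (1 + s) ^ (-(k : ℝ))) := by ring
      _ ≤ _ := by
          refine mul_le_mul_of_nonneg_right ?_ (by positivity)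
          have : 0 ≤ C1 * G3 * 2 ^ (2 * k + 1) := by positivity
          linarith
  · -- no stationary point
    have hsub : ∀ η ∈ Metric.ball (1 : ℂ) (2 * (1 / 500)),
        η ∈ Metric.ball (1 : ℂ) (4 * (1 / 500)) := by
      intro η hη
      rw [Metric.mem_ball] at hη ⊢
      linarith
    have h1 := hNS' r 1 Ψ (fun η => Λ * (T3 (UU a) β₁ β₂ β₃ η + X)) A3 G3
      (s * (1 + Q) / 2) hG30 (by positivity) (fun η hη => hder η (hsub η hη))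
      (fun η hη hηr => hreal η (hsub η hη) hηr) (fun η hη => by
        show s * (1 + Q) / 2 ≤ ‖Λ * (T3 (UU a) β₁ β₂ β₃ η + X)‖
        have h2 := hT3 η (hsub η hη)
        have h3 : ‖X‖ - ‖T3 (UU a) β₁ β₂ β₃ η‖ ≤ ‖T3 (UU a) β₁ β₂ β₃ η + X‖ := by
          have := norm_sub_norm_le X (-T3 (UU a) β₁ β₂ β₃ η)
          rw [norm_neg, sub_neg_eq_add, add_comm X] at this
          exact this
        have h4 : ‖Λ‖ * (‖X‖ - 6 * ‖π‖) ≤ ‖Λ‖ * ‖T3 (UU a) β₁ β₂ β₃ η + X‖ :=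
          mul_le_mul_of_nonneg_left (by linarith) hΛn.le
        have h5 : ‖Λ‖ * ‖π‖ = Q := by rw [hQe, norm_mul Λ π]
        rw [norm_mul]
        refine le_trans ?_ h4
        have h6 : ‖Λ‖ * (‖X‖ - 6 * ‖π‖) = ‖X‖ * ‖Λ‖ - 6 * (‖Λ‖ * ‖π‖) := by ring
        rw [h6, h5, ← hsQ]
        nlinarith)
      (hA3'.of_le (by omega))
    have h2 := case2 k r hs12 hQ0
    calc ‖itg r (fun η => A3 η * EE (Ψ η))‖ ≤ C1 * G3 * (1 / (s * (1 + Q) / 2) ^ (k + 1)) := by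
          rw [← mul_div_assoc, mul_one]
          exact h1
      _ ≤ C1 * G3 * (2 ^ (2 * k + 1) *
          ((1 + Q) ^ (-(dg r : ℝ) / 2) * (1 + s) ^ (-(k : ℝ)))) :=
          mul_le_mul_of_nonneg_left h2 (by positivity)
      _ = (C1 * G3 * 2 ^ (2 * k + 1)) *
          ((1 + Q) ^ (-(dg r : ℝ) / 2) * (1 + s) ^ (-(k : ℝ))) := by ring
      _ ≤ _ := by
          refine mul_le_mul_of_nonneg_right ?_ (by positivity)
          have : 0 ≤ C2 * G3 * 13 ^ k := by positivity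
          linarith

end Pool.Agent.H86.SWL
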